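import Pool.Agent.EGF.Stmts

/-!
# Row egf XSE (MP_1090a0_co): nearly all colours appear on pairs with many common neighbours
-/

set_option autoImplicit false

open Finset

namespace Pool.Agent.EGF.H87

open Pool.Agent.EGF

theorem xse (hDRE : DreStmt) : XseStmt := by
  intro V _ k c U A1 X0 θ E s hRec hθ hU hs hA1 hX0 hne hdeg hE hbig
  classical
  obtain ⟨hUne, hmax⟩ := hRec
  -- a colour for every vertex
  obtain ⟨x0, hx0⟩ := hne
  have : Nonempty (Fin k) := ⟨(hdeg x0 hx0).choose⟩
  choose! col hcol using hdeg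
  have hk : 0 < k := Fin.pos (col x0)
  -- pigeonhole
  obtain ⟨a, -, ha⟩ : ∃ a ∈ (Finset.univ : Finset (Fin k)),
      (X0.card : ℝ) / k ≤ ((X0.filter fun x => col x = a).card : ℝ) := by
    by_contra hcon
    push Not at hcon
    have h1 : (X0.card : ℝ) = ∑ a : Fin k, ((X0.filter fun x => col x = a).card : ℝ) := by
      rw [← Nat.cast_sum]
      congr 1
      exact Finset.card_eq_sum_card_fiberwise (fun x _ => Finset.mem_coe.2 (Finset.mem_univ _))
    have h2 : ∑ a : Fin k, ((X0.filter fun x => col x = a).card : ℝ) <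
        ∑ _a : Fin k, (X0.card : ℝ) / k := by
      refine Finset.sum_lt_sum_of_nonempty ⟨col x0, Finset.mem_univ _⟩ fun a ha => hcon a ha
    rw [← h1, Finset.sum_const, Finset.card_univ, Fintype.card_fin, nsmul_eq_mul] at h2
    have h3 : (k : ℝ) * ((X0.card : ℝ) / k) = X0.card := by
      have : (k : ℝ) ≠ 0 := by positivity
      field_simp
    rw [h3] at h2
    exact lt_irrefl _ h2
  set X1 : Finset V := X0.filter fun x => col x = a with hX1
  have hX0pos : 0 < (X0.card : ℝ) := by
    have : 0 < X0.card := Finset.card_pos.2 ⟨x0, hx0⟩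
    exact_mod_cast this
  have hkR : 0 < (k : ℝ) := by exact_mod_cast hk
  have hX1pos : 0 < (X1.card : ℝ) := lt_of_lt_of_le (div_pos hX0pos hkR) ha
  have hX1ne : X1.Nonempty := Finset.card_pos.1 (by exact_mod_cast hX1pos)
  have hX1sub : X1 ⊆ X0 := Finset.filter_subset _ _
  have hA1ne : A1.Nonempty := ⟨x0, hX0 hx0⟩
  have hsR : (2 : ℝ) ≤ s := by exact_mod_cast hs
  have hs2 : (4 : ℝ) ≤ (s : ℝ) ^ 2 := by nlinarith
  have ht0 : 0 < 1 / (s : ℝ) ^ 2 := by positivity
  have ht1 : 1 / (s : ℝ) ^ 2 ≤ 1 / 2 := by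
    rw [div_le_div_iff₀ (by positivity) (by norm_num)]
    linarith
  obtain ⟨X, hXs, hXne, hXlog, hXp⟩ := hDRE V k c X1 A1 a (1 / (s : ℝ) ^ 2) (1 / 128) 2 hX1ne hA1ne
    ht0 ht1 (by norm_num) (by norm_num) (by norm_num) (fun x hx => by
      have hx' := (Finset.mem_filter.1 hx)
      have := hcol x hx'.1
      rw [hx'.2] at this
      exact this)
  refine ⟨X, hXs.trans hX1sub, a, ?_, ?_⟩
  · -- the count
    have hlogt : Real.log (1 / (1 / (s : ℝ) ^ 2)) = 2 * Real.log s := by
      rw [one_div_one_div, Real.log_pow]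
      norm_num
    rw [hlogt] at hXlog
    have hXU : X ⊆ U := hXs.trans (hX1sub.trans (hX0.trans hA1))
    have h1 := hmax X hXU hXne
    have hUpos : 0 < (U.card : ℝ) := by
      have : 0 < U.card := Finset.card_pos.2 hUne
      exact_mod_cast this
    have h2 : Real.log X0.card ≤ Real.log U.card :=
      Real.log_le_log hX0pos (by exact_mod_cast Finset.card_le_card (hX0.trans hA1))
    have h3 : 0 ≤ Real.log (k : ℝ) := Real.log_natCast_nonneg k
    have h4 : Real.log X0.card - Real.log k ≤ Real.log X1.card := by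
      rw [← Real.log_div hX0pos.ne' hkR.ne']
      exact Real.log_le_log (div_pos hX0pos hkR) ha
    have h5 : θ * ((pal c U).card - (pal c X).card) ≤ θ * ((pal c U).card / 8) := by
      linarith
    have h6 := le_of_mul_le_mul_left h5 hθ
    linarith
  · intro x hx x' hx' hne'
    have h1 := hXp {x, x'} (by
      intro y hy
      rcases Finset.mem_insert.1 hy with h | h
      · rw [h]; exact hx
      · rw [Finset.mem_singleton.1 h]; exact hx') ⟨x, Finset.mem_insert_self _ _⟩ Finset.card_le_two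
    have e1 : (1 / (s : ℝ) ^ 2) ^ (1 + ((2 : ℕ) : ℝ) / (1 / 128)) = (1 / (s : ℝ) ^ 2) ^ 257 := by
      have : (1 + ((2 : ℕ) : ℝ) / (1 / 128)) = ((257 : ℕ) : ℝ) := by norm_num
      rw [this, Real.rpow_natCast]
    rw [e1] at h1
    refine h1.trans ?_
    have hsub : (A1.filter fun y => ∀ z ∈ ({x, x'} : Finset V), y ≠ z ∧ c z y = a) ⊆
        nb2 c A1 a x x' := by
      intro y hy
      obtain ⟨hy1, hy2⟩ := Finset.mem_filter.1 hy
      have hx1 := hy2 x (Finset.mem_insert_self _ _)
      have hx2 := hy2 x' (Finset.mem_insert_of_mem (Finset.mem_singleton_self _))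
      exact Finset.mem_filter.2 ⟨hy1, hx1.1, hx2.1, hx1.2, hx2.2⟩
    exact_mod_cast Finset.card_le_card hsub

end Pool.Agent.EGF.H87
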