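import Pool.Agent.EGF.StmtsR

/-! EGF, row CN7: the count (helper87, after the file of helper38 for CN8). -/

set_option autoImplicit false

open Finset

namespace Pool.Agent.EGF.H87

open Pool.Agent.EGF

theorem cn7 : Cn7Stmt := by
  intro V _ k c C U W A0 A A' M L0 L L' x x' w w' e a a2 g l l2 i y b hsym hWU hM hch hA0 hL0 h h' hi
  obtain ⟨w1, w2, w3, w4, w5⟩ := h.cA w h'.hx
  obtain ⟨v1, v2, v3, v4, v5⟩ := h.cA w' h'.hx'
  have mx : x ∈ W := hA0 h.hx
  have mx' : x' ∈ W := hA0 h.hx'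
  have mw : w ∈ W := hA0 (h.sA h'.hx)
  have mw' : w' ∈ W := hA0 (h.sA h'.hx')
  have ml : l ∈ M := hL0 h.hl
  have ml2 : l2 ∈ M := hL0 (h.sL h'.hl)
  have mi : i ∈ M := hL0 (h.sL (h'.sL hi))
  obtain ⟨p1, p2, p3⟩ := h.cL l2 h'.hl
  obtain ⟨q1, q2, q3⟩ := h.cL i (h'.sL hi)
  obtain ⟨r1, r2, r3⟩ := h'.cL i hi
  obtain ⟨s1, s2⟩ := hch.1 l ml l2 ml2 p1
  obtain ⟨t1, t2⟩ := hch.1 l ml i mi q1
  obtain ⟨u1, u2⟩ := hch.1 l2 ml2 i mi r1
  have dis : ∀ u, u ∈ W → ∀ j ∈ M, u ≠ y j := fun u hu j hj huj =>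
    (hM j hj).2 (huj ▸ hu)
  refine ⟨{x, x', w, w', y l, y l2, y i}, ?_, ?_, ?_⟩
  · intro u hu
    simp only [mem_insert, mem_singleton] at hu
    rcases hu with rfl | rfl | rfl | rfl | rfl | rfl | rfl
    · exact hWU mx
    · exact hWU mx'
    · exact hWU mw
    · exact hWU mw'
    · exact (hM l ml).1
    · exact (hM l2 ml2).1
    · exact (hM i mi).1
  · have n1 := h.nx
    have n3 := h'.nx
    have d1 := dis x mx l ml
    have d2 := dis x mx l2 ml2
    have d3 := dis x mx i mi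
    have d4 := dis x' mx' l ml
    have d5 := dis x' mx' l2 ml2
    have d6 := dis x' mx' i mi
    have d7 := dis w mw l ml
    have d8 := dis w mw l2 ml2
    have d9 := dis w mw i mi
    have d10 := dis w' mw' l ml
    have d11 := dis w' mw' l2 ml2
    have d12 := dis w' mw' i mi
    rw [card_insert_of_notMem, card_insert_of_notMem, card_insert_of_notMem,
      card_insert_of_notMem, card_insert_of_notMem, card_insert_of_notMem, card_singleton]
    all_goals simp only [mem_insert, mem_singleton, not_or]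
    · exact u1
    · exact ⟨s1, t1⟩
    · exact ⟨d10, d11, d12⟩
    · exact ⟨n3, d7, d8, d9⟩
    · exact ⟨w2.symm, v2.symm, d4, d5, d6⟩
    · exact ⟨n1, w1.symm, v1.symm, d1, d2, d3⟩
  · set S : Finset (Fin k) := {b l, b l2, a, e, g} with hS
    have r : ∀ {u v}, c u v ∈ S → c v u ∈ S := fun {u v} h => by rw [hsym v u]; exact h
    have ma : a ∈ S := by simp [hS]
    have me : e ∈ S := by simp [hS]
    have mg : g ∈ S := by simp [hS]
    have mb : b l ∈ S := by simp [hS]
    have mb2 : b l2 ∈ S := by simp [hS]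
    have m1 : c x x' ∈ S := by rw [h.eq]; exact mb
    have m2 : c w w' ∈ S := by rw [h'.eq]; exact mb2
    have a1' : c x w ∈ S := by rw [w3]; exact ma
    have a2' : c x' w ∈ S := by rw [w4]; exact ma
    have a3' : c (y l) w ∈ S := by rw [w5]; exact me
    have b1' : c x w' ∈ S := by rw [v3]; exact ma
    have b2' : c x' w' ∈ S := by rw [v4]; exact ma
    have b3' : c (y l) w' ∈ S := by rw [v5]; exact me
    have c1' : c x (y l2) ∈ S := by rw [p2]; exact me
    have c2' : c x' (y l2) ∈ S := by rw [p3]; exact me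
    have c3' : c x (y i) ∈ S := by rw [q2]; exact me
    have c4' : c x' (y i) ∈ S := by rw [q3]; exact me
    have c5' : c w (y i) ∈ S := by rw [r2]; exact me
    have c6' : c w' (y i) ∈ S := by rw [r3]; exact me
    have f0 : c x (y l) ∈ S := by rw [h.f0]; exact me
    have f1 : c x' (y l) ∈ S := by rw [h.f1]; exact mg
    have g0 : c w (y l2) ∈ S := by rw [h'.f0]; exact me
    have g1 : c w' (y l2) ∈ S := by rw [h'.f1]; exact mg
    have k1 : c (y l) (y l2) ∈ S := by rw [s2]; exact mb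
    have k2 : c (y l) (y i) ∈ S := by rw [t2]; exact mb
    have k3 : c (y l2) (y i) ∈ S := by rw [u2]; exact mb2
    have key : ∀ z1 z2 : V, (z1 = x ∨ z1 = x' ∨ z1 = w ∨ z1 = w' ∨ z1 = y l ∨ z1 = y l2 ∨
        z1 = y i) → (z2 = x ∨ z2 = x' ∨ z2 = w ∨ z2 = w' ∨ z2 = y l ∨ z2 = y l2 ∨ z2 = y i) →
        z1 ≠ z2 → c z1 z2 ∈ S := by
      intro z1 z2 o1 o2 hne
      rcases o1 with o1 | o1 | o1 | o1 | o1 | o1 | o1 <;>
        rcases o2 with o2 | o2 | o2 | o2 | o2 | o2 | o2 <;>
        rw [o1, o2] at hne ⊢ <;>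
        first
          | exact absurd rfl hne
          | assumption
          | (apply r; assumption)
    have hsub : pal c ({x, x', w, w', y l, y l2, y i} : Finset V) ⊆ S := by
      intro j hj
      unfold pal at hj
      obtain ⟨p, hp, rfl⟩ := mem_image.1 hj
      obtain ⟨hp1, hp2⟩ := mem_filter.1 hp
      obtain ⟨o1, o2⟩ := mem_product.1 hp1
      simp only [mem_insert, mem_singleton] at o1 o2
      exact key _ _ o1 o2 hp2
    exact (card_le_card hsub).trans card_le_five

end Pool.Agent.EGF.H87
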